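import Pool.Agent.H99.SQ.Defs

/-!
# Board sqf2: module PP
-/

set_option autoImplicit false

namespace Pool.Agent.H48.SQ

open Finset Pool.Agent.H99.SQ

theorem pf_PP : T_PP := by
  intro x Q q a b A hQ hq hc hA
  rcases A.eq_empty_or_nonempty with h | ⟨n0, hn0⟩
  · subst h
    simp only [card_empty, Nat.cast_zero]
    positivity
  have hM : 0 < Q * q := Nat.mul_pos hQ hq
  have hmod : ∀ n ∈ A, n % (Q * q) = n0 % (Q * q) := by
    intro n hn
    obtain ⟨-, h1, h2⟩ := hA n hn
    obtain ⟨-, h3, h4⟩ := hA n0 hn0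
    exact (Nat.modEq_and_modEq_iff_modEq_mul hc).1 ⟨h1.trans h3.symm, h2.trans h4.symm⟩
  have hcard : A.card ≤ (range (x / (Q * q) + 1)).card := by
    refine card_le_card_of_injOn (fun n => n / (Q * q)) ?_ ?_
    · intro n hn
      have h := (hA n hn).1
      simp only [coe_range, Set.mem_Iio]
      exact Nat.lt_succ_of_le (Nat.div_le_div_right h)
    · intro n hn m hm h
      have h1 : n / (Q * q) = m / (Q * q) := h
      have h2 := (hmod n hn).trans (hmod m hm).symm
      calc n = Q * q * (n / (Q * q)) + n % (Q * q) := (Nat.div_add_mod _ _).symm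
        _ = Q * q * (m / (Q * q)) + m % (Q * q) := by rw [h1, h2]
        _ = m := Nat.div_add_mod _ _
  rw [card_range] at hcard
  have h5 : ((x / (Q * q) : ℕ) : ℝ) ≤ (x : ℝ) / ((Q * q : ℕ) : ℝ) := Nat.cast_div_le
  have h6 : (A.card : ℝ) ≤ ((x / (Q * q) + 1 : ℕ) : ℝ) := by exact_mod_cast hcard
  push_cast at h5 h6
  linarith

end Pool.Agent.H48.SQ
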